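import Pool.Agent.T2h48.TD.Fam
import Pool.Agent.T2h48.LF.All

/-!
# Hall's finiteness conjecture for algebraic families of symmetric designs

Let `F` be a finite field. An *algebraic family of incidence structures* over `F` is given by three
quantifier-free formulas in the language of rings with coefficients in `F`: a formula `X` in `a` variables (the
points), a formula `B` in `b` variables (the blocks) and a formula `I` in `a + b` variables (the incidence
relation). Its member over an extension field `K` of `F` has the set of points `X(K) ⊆ K ^ a`, the set of blocks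
`B(K) ⊆ K ^ b`, and the point `x` and the block `y` are incident if `I` holds at `(x, y)`.

By the theorem of Lang and Weil `#X(K) = h q ^ d + O(q ^ (d - 1/2))` for the extensions `K` of `F` with `q`
elements, of degree `m`, where `d = d(m)` is the largest dimension of a geometrically irreducible component of
the Zariski closure of `X` that is defined over `K`, and `h = h(m)` is the number of these components of dimension
`d`; `h` and `d` are periodic functions of `m`. (This is proved, not assumed.)

We prove: for every `L` there is `C'` such that, if the member over an extension `K` of degree `m` is a symmetric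
`(v, k, l)` design with `v > C'` and `1 ≤ l ≤ L`, then `l` divides `h(m)`. In particular, if `h = 1` (`X` is
geometrically irreducible up to lower dimension) then a family contains only finitely many symmetric designs
with a given parameter `l ≥ 2`.

The proof contains proofs of Dwork's theorem on the rationality of zeta functions and of the theorem of Lang and
Weil for constructible sets in characteristic `p`, and uses the theorem of Skolem, Mahler and Lech and Gauss's
lemma in a ring of Laurent polynomials.
-/

set_option autoImplicit false

namespace Pool.Agent.Results.MP_c38931_co.AlgebraicFamilies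

/-- Quantifier-free formulas in the language of rings with `n` free variables and coefficients in `F`:
`eq f` is the equation `f = 0`, `neg` is the negation, `and` is the conjunction. -/
inductive QF (F : Type) [CommRing F] (n : ℕ) : Type
  | eq : MvPolynomial (Fin n) F → QF F n
  | neg : QF F n → QF F n
  | and : QF F n → QF F n → QF F n

/-- truth of a formula at a point `x ∈ K ^ n` -/
def QF.Holds {F : Type} [CommRing F] {n : ℕ} {K : Type} [CommRing K] [Algebra F K] :
    QF F n → (Fin n → K) → Prop
  | QF.eq f, x => MvPolynomial.aeval x f = 0
  | QF.neg φ, x => ¬ φ.Holds x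
  | QF.and φ ψ, x => φ.Holds x ∧ ψ.Holds x

/-- the set `X(K)` of the points of `K ^ a` at which `X` is true -/
abbrev Points {F : Type} [Field F] {a : ℕ} (X : QF F a) (K : Type) [Field K] [Algebra F K] : Type :=
  {x : Fin a → K // X.Holds x}

/-- The member over `K` of the algebraic family `(X, B, I)`: the set of points is `X(K)`, the set of blocks
is `B(K)`, and `x` and `y` are incident if `I` is true at `(x, y)`. -/
def member {F : Type} [Field F] {a b : ℕ} (X : QF F a) (B : QF F b) (I : QF F (a + b))
    (K : Type) [Field K] [Algebra F K] (x : Points X K) (y : Points B K) : Prop :=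
  I.Holds (Fin.append x.1 y.1)

/-- The incidence relation `I` between the set `P` of points and the set `B` of blocks is a symmetric
`(v, k, l)` design: there are `v` points and `v` blocks, every block is incident with `k` points, and any two
distinct points are incident with exactly `l` common blocks. -/
structure IsSymmetricDesign {P B : Type} (I : P → B → Prop) (v k l : ℕ) : Prop where
  cardP : Nat.card P = v
  cardB : Nat.card B = v
  block : ∀ b : B, Nat.card {x : P // I x b} = k
  pair : ∀ x y : P, x ≠ y → Nat.card {b : B // I x b ∧ I y b} = l

/-- translation of the formulas -/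
def tr {F : Type} [Field F] {n : ℕ} : QF F n → Pool.Agent.T2h48.DW.QF F n
  | QF.eq f => .eq f
  | QF.neg φ => .neg (tr φ)
  | QF.and φ ψ => .and (tr φ) (tr ψ)

theorem tr_holds {F : Type} [Field F] {n : ℕ} (φ : QF F n) (K : Type) [Field K] [Algebra F K]
    (x : Fin n → K) : (tr φ).Holds x = φ.Holds x := by
  induction φ with
  | eq f => rfl
  | neg φ ih => exact congrArg Not ih
  | and φ ψ ih1 ih2 => exact congrArg₂ And ih1 ih2

/-- Let `(X, B, I)` be an algebraic family over the finite field `F`. There are periodic functions `h`, `d` with
`#X(K) = h(m) q ^ d(m) + O(q ^ (d(m) - 1 / 2))` for the extensions `K` of `F` of degree `m` with `q` elements,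
and with `h(m) = 0` only if `X(K)` is empty (so `h(m)` and `d(m)` are determined by `X` if `X(K)` is not empty for
some `K` of degree `m`), and for every `L` there is `C'` such that, if the member over `K` is a symmetric
`(v, k, l)` design with `1 ≤ l ≤ L` and `v > C'`, then `l` divides `h(m)`. -/
theorem result {F : Type} [Field F] [Finite F] {a b : ℕ} (X : QF F a) (B : QF F b) (I : QF F (a + b)) :
    ∃ (T C : ℕ) (h d : ℕ → ℕ), 1 ≤ T ∧ (∀ m, h (m + T) = h m ∧ d (m + T) = d m) ∧
      (∀ (K : Type) [Field K] [Finite K] [Algebra F K],
        |(Nat.card (Points X K) : ℝ) -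
          h (Module.finrank F K) * (Nat.card K : ℝ) ^ d (Module.finrank F K)| * √(Nat.card K : ℝ) ≤
          C * (Nat.card K : ℝ) ^ d (Module.finrank F K)) ∧
      (∀ (K : Type) [Field K] [Finite K] [Algebra F K], h (Module.finrank F K) = 0 →
        IsEmpty (Points X K)) ∧
      ∀ L : ℕ, ∃ C' : ℕ, ∀ (K : Type) [Field K] [Finite K] [Algebra F K], ∀ v k l : ℕ,
        1 ≤ l → l ≤ L → C' < v → IsSymmetricDesign (member X B I K) v k l →
        l ∣ h (Module.finrank F K) := by
  obtain ⟨T, C, h, d, h1, h2, h3, h0, h4⟩ :=
    Pool.Agent.T2h48.TD.fam Pool.Agent.T2h48.LF.formF (tr X) (tr B) (tr I)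
  have hX : ∀ (K : Type) [Field K] [Algebra F K], (tr X).Holds (K := K) = X.Holds := fun K _ _ =>
    funext fun x => tr_holds X K x
  have hB : ∀ (K : Type) [Field K] [Algebra F K], (tr B).Holds (K := K) = B.Holds := fun K _ _ =>
    funext fun x => tr_holds B K x
  have hI : ∀ (K : Type) [Field K] [Algebra F K], (tr I).Holds (K := K) = I.Holds := fun K _ _ =>
    funext fun x => tr_holds I K x
  refine ⟨T, C, h, d, h1, h2, fun K _ _ _ => ?_, fun K _ _ _ hz => ?_, fun L => ?_⟩
  · have h5 := h3 K
    rw [hX] at h5
    exact h5
  · have h5 := h0 K hz
    rw [hX] at h5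
    exact Finite.card_eq_zero_iff.1 h5
  · obtain ⟨C', h5⟩ := h4 L
    refine ⟨C', fun K _ _ _ v k l hl hL hv hd => h5 K v k l hl hL hv ?_⟩
    rw [hX, hB, hI]
    exact ⟨hd.1, hd.2, hd.3, hd.4⟩

end Pool.Agent.Results.MP_c38931_co.AlgebraicFamilies
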