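import Pool.Agent.T2h48.TD.Tower
import Pool.Agent.T2h48.AD.T_LIM
import Pool.Agent.T2h48.LF.All

set_option autoImplicit false

namespace Pool.Agent.Results.MP_c38931_co.AlgebraicTowers

/-- Quantifier-free formulas in the language of rings with `n` free variables and coefficients in `F`:
`eq f` is the equation `f = 0`, `neg` is the negation, `and` is the conjunction. -/
inductive QF (F : Type) [CommRing F] (n : ℕ) : Type
  | eq : MvPolynomial (Fin n) F → QF F n
  | neg : QF F n → QF F n
  | and : QF F n → QF F n → QF F n

/-- truth of a formula at a point `x ∈ K ^ n` -/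
def QF.Holds {F : Type} [CommRing F] {n : ℕ} {K : Type} [CommRing K] [Algebra F K] :
    QF F n → (Fin n → K) → Prop
  | QF.eq f, x => MvPolynomial.aeval x f = 0
  | QF.neg φ, x => ¬ φ.Holds x
  | QF.and φ ψ, x => φ.Holds x ∧ ψ.Holds x

/-- the set `X(K)` of the points of `K ^ a` at which `X` is true -/
abbrev Points {F : Type} [Field F] {a : ℕ} (X : QF F a) (K : Type) [Field K] [Algebra F K] : Type :=
  {x : Fin a → K // X.Holds x}

/-- The member over `K` of the algebraic family `(X, B, I)`: the set of points is `X(K)`, the set of blocks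
is `B(K)`, and `x` and `y` are incident if `I` is true at `(x, y)`. -/
def member {F : Type} [Field F] {a b : ℕ} (X : QF F a) (B : QF F b) (I : QF F (a + b))
    (K : Type) [Field K] [Algebra F K] (x : Points X K) (y : Points B K) : Prop :=
  I.Holds (Fin.append x.1 y.1)

/-- The incidence relation `I` between the set `P` of points and the set `B` of blocks is a symmetric
`(v, k, l)` design: there are `v` points and `v` blocks, every block is incident with `k` points, and any two
distinct points are incident with exactly `l` common blocks. -/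
structure IsSymmetricDesign {P B : Type} (I : P → B → Prop) (v k l : ℕ) : Prop where
  cardP : Nat.card P = v
  cardB : Nat.card B = v
  block : ∀ b : B, Nat.card {x : P // I x b} = k
  pair : ∀ x y : P, x ≠ y → Nat.card {b : B // I x b ∧ I y b} = l

/-- translation of the formulas -/
def tr {F : Type} [Field F] {n : ℕ} : QF F n → Pool.Agent.T2h48.DW.QF F n
  | QF.eq f => .eq f
  | QF.neg φ => .neg (tr φ)
  | QF.and φ ψ => .and (tr φ) (tr ψ)

theorem tr_holds {F : Type} [Field F] {n : ℕ} (φ : QF F n) (K : Type) [Field K] [Algebra F K]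
    (x : Fin n → K) : (tr φ).Holds x = φ.Holds x := by
  induction φ with
  | eq f => rfl
  | neg φ ih => exact congrArg Not ih
  | and φ ψ ih1 ih2 => exact congrArg₂ And ih1 ih2

theorem tr_design {F : Type} [Field F] {a b : ℕ} (X : QF F a) (B : QF F b) (I : QF F (a + b))
    (K : Type) [Field K] [Algebra F K] (v k l : ℕ) :
    Pool.Agent.T2h48.DW.IsSymmetricDesign (Pool.Agent.T2h48.TD.inc (tr X) (tr B) (tr I) K) v k l ↔
      IsSymmetricDesign (member X B I K) v k l := by
  have hX : (tr X).Holds (K := K) = X.Holds := funext fun x => tr_holds X K x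
  have hB : (tr B).Holds (K := K) = B.Holds := funext fun x => tr_holds B K x
  have hI : (tr I).Holds (K := K) = I.Holds := funext fun x => tr_holds I K x
  unfold member Pool.Agent.T2h48.TD.inc Points Pool.Agent.T2h48.AD.Pt
  rw [hX, hB, hI]
  exact ⟨fun h => ⟨h.1, h.2, h.3, h.4⟩, fun h => ⟨h.1, h.2, h.3, h.4⟩⟩

theorem tr_points {F : Type} [Field F] {a : ℕ} (X : QF F a) (K : Type) [Field K] [Algebra F K] :
    Pool.Agent.T2h48.AD.Pt (tr X) K = Points X K := by
  unfold Pool.Agent.T2h48.AD.Pt Points
  congr 1
  funext x
  exact tr_holds X K x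

/-- **Unbounded algebraic families of symmetric designs with bounded `λ` consist of projective planes.**
Let `F` be a finite field and `(X, B, I)` an algebraic family of incidence structures over `F`, such that for
every `s` and every extension `K` of `F` of degree `2 ^ s` the member over `K` is a symmetric `(v, k, l)` design
with `1 ≤ l ≤ L` (`v`, `k`, `l` may depend on `K`), and such that the number of points of these members is
unbounded. Then for all these `K` with at least two points `l = 1`, and the order `k - 1` of the
projective plane is a power of the order of `K`. -/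
theorem result {F : Type} [Field F] [Finite F] {a b : ℕ} (X : QF F a) (B : QF F b) (I : QF F (a + b))
    (L : ℕ)
    (h : ∀ (s : ℕ) (K : Type) [Field K] [Finite K] [Algebra F K], Module.finrank F K = 2 ^ s →
      ∃ v k l, 1 ≤ l ∧ l ≤ L ∧ IsSymmetricDesign (member X B I K) v k l)
    (hinf : ∀ C : ℕ, ∃ (s : ℕ) (K : Type) (_ : Field K) (_ : Finite K) (_ : Algebra F K),
      Module.finrank F K = 2 ^ s ∧ C < Nat.card (Points X K)) :
    ∀ (s : ℕ) (K : Type) [Field K] [Finite K] [Algebra F K], Module.finrank F K = 2 ^ s →
      ∀ v k l, 2 ≤ v → IsSymmetricDesign (member X B I K) v k l →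
        l = 1 ∧ ∃ w, 1 ≤ w ∧ k = Nat.card K ^ w + 1 := by
  intro s K _ _ _ hK v k l hv hd
  refine Pool.Agent.T2h48.TD.main Pool.Agent.T2h48.LF.formF Pool.Agent.T2h48.AD.t_LIM (tr X) (tr B)
    (tr I) L (fun s K _ _ _ hK => ?_) (fun C => ?_) hK hv ((tr_design X B I K v k l).2 hd)
  · obtain ⟨v, k, l, h1, h2, h3⟩ := h s K hK
    exact ⟨v, k, l, h1, h2, (tr_design X B I K v k l).2 h3⟩
  · obtain ⟨s, K, i1, i2, i3, hK, hC⟩ := hinf C
    exact ⟨s, K, i1, i2, i3, hK, by rw [tr_points]; exact hC⟩

end Pool.Agent.Results.MP_c38931_co.AlgebraicTowers
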