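import Pool.Agent.T2h48.LZ.Irr2

/-!
# The parameters of algebraic families of symmetric designs in large characteristic

An *algebraic family of incidence structures* over `ℤ` is given by three quantifier-free formulas in the
language of rings with integer coefficients (`Pool.Agent.T2h48.DW.QF`): a formula `X` in `a` variables (the
points), a formula `B` in `b` variables (the blocks) and a formula `I` in `a + b` variables (the incidence
relation). Its member over a finite field `F` has the set of points `X(F) ⊆ F ^ a`, the set of blocks
`B(F) ⊆ F ^ b`, and the point `x` and the block `y` are incident if `I` holds at `(x, y)`.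

We prove: for every algebraic family and every `L` there is `C` such that, if `F` is a finite field with `q`
elements and characteristic `> C`, and if the member over `F` is a symmetric `(v, k, l)` design with `v > C`
and `1 ≤ l ≤ L`, then `v = h q ^ (2 e) + O(q ^ (2 e - 1/2))` with integers `e, h ≥ 1`, the dimension of the set
of points is even, and `l h` is a perfect square. (By the theorem of Lang and Weil `h` is the number of the
geometrically irreducible components of `X` over `F` of maximal dimension.) If `X` is geometrically
irreducible then `h = 1`, and so `l` is a perfect square: **for every integer `l` that is not a perfect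
square, an algebraic family with a geometrically irreducible set of points contains no symmetric
`(v, k, l)` design with `v > C` over any finite field of characteristic `> C`.**

The proof. The theorem of Lang and Weil is proved for constructible sets over `ℤ` and applied to `X`
and to the set of flags, with `v ~ h q ^ d` and `v k ~ h' q ^ d'`. From `k (k - 1) = l (v - 1)` one gets
`3 d = 2 d'` and `h' ^ 2 = l h ^ 3`.
-/

set_option autoImplicit false

namespace Pool.Agent.Results.MP_c38931_co.NonsquareLambdaFamilies

open Pool.Agent.T2h48.DW Pool.Agent.T2h48.LZ

/-- Let `(X, B, I)` be an algebraic family of incidence structures over `ℤ`. For every `L` there is `C` such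
that for all finite fields `F` of characteristic greater than `C`, `q = #F`, and all `v > C`, `k`, `1 ≤ l ≤ L`:
if `(X(F), B(F), I(F))` is a symmetric `(v, k, l)` design, then there are integers `1 ≤ e ≤ C`,
`1 ≤ h ≤ C` with `|v - h q ^ (2 e)| ≤ C q ^ (2 e - 1/2)`, and `l h` is a perfect square; and `h = 1`, so that
`l` is a perfect square, if `X` is geometrically irreducible. -/
theorem result {a b : ℕ} (X : QF ℤ a) (B : QF ℤ b) (I : QF ℤ (a + b)) (L : ℕ) :
    ∃ C : ℕ, ∀ (F : Type) [Field F] [Finite F], C < ringChar F → ∀ v k l : ℕ, 1 ≤ l → l ≤ L → C < v →
      IsSymmetricDesign (fun (x : {x : Fin a → F // X.Holds x})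
        (y : {y : Fin b → F // B.Holds y}) => I.Holds (Fin.append x.1 y.1)) v k l →
      ∃ e h m : ℕ, 1 ≤ e ∧ e ≤ C ∧ 1 ≤ h ∧ h ≤ C ∧ l * h = m ^ 2 ∧
        |(v : ℝ) - h * (Nat.card F : ℝ) ^ (2 * e)| * √(Nat.card F : ℝ) ≤
          C * (Nat.card F : ℝ) ^ (2 * e) ∧ (GeomIrr X → h = 1) :=
  square_comp X B I L

end Pool.Agent.Results.MP_c38931_co.NonsquareLambdaFamilies
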