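import Pool.Agent.T2h48.LZ.Poly2

/-!
# Hall's finiteness conjecture for algebraic families of symmetric designs over all finite fields

An *algebraic family of incidence structures* over `ℤ` is given by three quantifier-free formulas in the
language of rings with integer coefficients (`Pool.Agent.T2h48.DW.QF`): a formula `X` in `a` variables (the
points), a formula `B` in `b` variables (the blocks) and a formula `I` in `a + b` variables (the incidence
relation). Its member over a finite field `F` has the set of points `X(F) ⊆ F ^ a`, the set of blocks
`B(F) ⊆ F ^ b`, and the point `x` and the block `y` are incident if `I` holds at `(x, y)`.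

We prove: let `V` be a polynomial with integer coefficients, of positive degree. For all but finitely many
finite fields `F` (the characteristic is not bounded), if the member of the family over `F` is a symmetric
`(v, k, l)` design with `v = V(#F)` and `l ≤ L`, then `l` divides the leading coefficient of `V`.
In particular, if the number of the points is `V(#F)` with a monic polynomial `V` (as for projective and
polar spaces, Grassmannians, split reductive groups and their homogeneous spaces, ...), then the family
contains only finitely many symmetric designs with a given parameter `l ≥ 2`: Hall's finiteness conjecture
holds for these families.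

The proof. If the characteristics of the fields are not bounded, the theorem of Lang and Weil (proved here for
constructible sets over `ℤ`) is applied to the set of flags: with `v ~ h q ^ d` and `v k ~ h' q ^ d'` it
gives `3 d = 2 d'`, `h' ^ 2 = l h ^ 3`, so `1 + 4 l (V - 1)` has even degree and its leading coefficient is a
square; it has infinitely many square values `(2 k - 1) ^ 2`, so it is the square of a polynomial by
Runge's method; and then `l ∣ h` by Gauss's lemma. In a fixed characteristic `k` is a quotient of
exponential sums by Dwork's theorem on the rationality of zeta functions (proved here), and `l ∣ h` follows
from the theorem of Skolem, Mahler and Lech and Gauss's lemma in a ring of Laurent polynomials.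
-/

set_option autoImplicit false

namespace Pool.Agent.Results.MP_c38931_co.PolynomialCountFamilies

open Pool.Agent.T2h48.DW Pool.Agent.T2h48.LZ

/-- Let `(X, B, I)` be an algebraic family of incidence structures over `ℤ`, `V ∈ ℤ[T]` a polynomial of
positive degree, and `L` an integer. There is `M` such that for all finite fields `F` with at least `M`
elements: if `(X(F), B(F), I(F))` is a symmetric `(v, k, l)` design with `v = V(#F)` and `1 ≤ l ≤ L`,
then `l` divides the leading coefficient of `V`. -/
theorem result {a b : ℕ} (X : QF ℤ a) (B : QF ℤ b) (I : QF ℤ (a + b)) (V : Polynomial ℤ)
    (hV : 1 ≤ V.natDegree) (L : ℕ) :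
    ∃ M : ℕ, ∀ (F : Type) [Field F] [Finite F], M ≤ Nat.card F → ∀ v k l : ℕ, 1 ≤ l → l ≤ L →
      (v : ℤ) = V.eval (Nat.card F : ℤ) →
      IsSymmetricDesign (fun (x : {x : Fin a → F // X.Holds x})
        (y : {y : Fin b → F // B.Holds y}) => I.Holds (Fin.append x.1 y.1)) v k l →
      (l : ℤ) ∣ V.leadingCoeff :=
  poly_all X B I V hV L

end Pool.Agent.Results.MP_c38931_co.PolynomialCountFamilies
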